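import Pool.Agent.H30.FA.TC
import Pool.Agent.H30.FA.TA

/-!
Row FRM of the board fas: the frame (all the hypotheses of the algebraic theorem).
-/

namespace Pool.Agent.H48.FAS

noncomputable section

open Pool.Agent.H59 Pool.Agent.H48.FR Pool.Agent.H58.FL Pool.Agent.H30.FA

theorem min_fin (m : ℕ) (f : Fin m → ℝ) (hf : ∀ i, 0 < f i) :
    ∃ s : ℝ, 0 < s ∧ ∀ i, s ≤ f i := by
  have h0 : 0 ≤ ∑ i, (f i)⁻¹ := Finset.sum_nonneg fun i _ => (inv_pos.2 (hf i)).le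
  refine ⟨(1 + ∑ i, (f i)⁻¹)⁻¹, by positivity, fun i => ?_⟩
  have h1 : (f i)⁻¹ ≤ ∑ i, (f i)⁻¹ :=
    Finset.single_le_sum (f := fun i => (f i)⁻¹) (fun j _ => (inv_pos.2 (hf j)).le)
      (Finset.mem_univ i)
  rw [inv_le_comm₀ (by positivity) (hf i)]
  linarith only [h1]

theorem norm_ph {z : ℂ} (hz : z ≠ 0) : ‖ph z‖ = 1 := by
  unfold ph
  rw [norm_div, Complex.norm_real, norm_norm]
  exact div_self (norm_ne_zero_iff.2 hz)

theorem ph_dist {E : Type} [NormedAddCommGroup E] [InnerProductSpace ℂ E] (a b : E)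
    (ha : ‖a‖ = 1) (hb : ‖b‖ = 1) (hz : inner ℂ a b ≠ 0) :
    ‖b - ph (inner ℂ a b) • a‖ ^ 2 = 2 - 2 * ‖inner ℂ a b‖ := by
  have h1 : ‖b - ph (inner ℂ a b) • a‖ ^ 2 = ‖b‖ ^ 2 -
      2 * RCLike.re (inner ℂ b (ph (inner ℂ a b) • a)) + ‖ph (inner ℂ a b) • a‖ ^ 2 :=
    norm_sub_sq (𝕜 := ℂ) b (ph (inner ℂ a b) • a)
  have h2 : inner ℂ b (ph (inner ℂ a b) • a) = ((‖inner ℂ a b‖ : ℝ) : ℂ) := by
    have h3 : ((‖inner ℂ a b‖ : ℝ) : ℂ) ≠ 0 := by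
      exact_mod_cast norm_ne_zero_iff.2 hz
    rw [inner_smul_right, ← inner_conj_symm b a]
    unfold ph
    rw [div_mul_eq_mul_div, Complex.mul_conj, div_eq_iff h3, Complex.normSq_eq_norm_sq]
    push_cast
    ring
  rw [h1, h2, norm_smul, norm_ph hz, ha, hb]
  have h4 : RCLike.re ((‖inner ℂ a b‖ : ℝ) : ℂ) = ‖inner ℂ a b‖ := Complex.ofReal_re _
  rw [h4]
  ring

theorem ph_dist_le {E : Type} [NormedAddCommGroup E] [InnerProductSpace ℂ E] (a b : E) (s : ℝ)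
    (ha : ‖a‖ = 1) (hb : ‖b‖ = 1) (hz : inner ℂ a b ≠ 0) (hs : 1 - s ≤ ‖inner ℂ a b‖ ^ 2) :
    ‖b - ph (inner ℂ a b) • a‖ ≤ Real.sqrt (2 * s) := by
  apply Real.le_sqrt_of_sq_le
  rw [ph_dist a b ha hb hz]
  have h1 : ‖inner ℂ a b‖ ≤ 1 := by
    have := norm_inner_le_norm (𝕜 := ℂ) a b
    rw [ha, hb, mul_one] at this
    exact this
  have h2 : ‖inner ℂ a b‖ ^ 2 ≤ ‖inner ℂ a b‖ := by
    have := norm_nonneg (inner ℂ a b)
    nlinarith only [this, h1]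
  linarith only [hs, h2]

theorem pf_FRM (hBAS : T_BAS) (hPRT : T_PRT) (hTRP : T_TRP) (hWDG : T_WDG) (hUPC : T_UPC)
    (hSCT : T_SCT) : T_FRM := by
  intro κ κ₂ m k J _ x σ hκ₂ hκκ
  obtain ⟨η₃, hη₃, hT⟩ := hTRP κ (hκ₂.trans hκκ)
  obtain ⟨s₁, hs₁, hU⟩ := hUPC
  choose sf hsf hC using fun i : Fin m => hSCT (σ.w i) (σ.c / 2) (half_pos σ.c_pos)
  obtain ⟨s₂, hs₂, hs₂f⟩ := min_fin m sf hsf
  set η₂ : ℝ := min (1 / 8) (min η₃ (κ - κ₂)) with hη₂d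
  have hη₂ : 0 < η₂ := lt_min (by norm_num) (lt_min hη₃ (by linarith only [hκκ]))
  have hη₂a : η₂ ≤ 1 / 8 := min_le_left _ _
  have hη₂b : η₂ ≤ η₃ := (min_le_right _ _).trans (min_le_left _ _)
  have hη₂c : η₂ ≤ κ - κ₂ := (min_le_right _ _).trans (min_le_right _ _)
  set s : ℝ := min (1 / 2) (min s₁ s₂) with hsd
  have hs : 0 < s := lt_min (by norm_num) (lt_min hs₁ hs₂)
  have hsa : s ≤ 1 / 2 := min_le_left _ _
  have hsb : s ≤ s₁ := (min_le_right _ _).trans (min_le_left _ _)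
  have hsc : s ≤ s₂ := (min_le_right _ _).trans (min_le_right _ _)
  set b : ℝ := min s (σ.c / 2) with hbd
  have hb : 0 < b := lt_min hs (half_pos σ.c_pos)
  set q : ℝ := b / (σ.L + 1) with hqd
  have hL0 := σ.L_nonneg
  have hL1 : 0 < σ.L + 1 := by linarith only [hL0]
  have hq : 0 < q := div_pos hb hL1
  have hLq : σ.L * q ≤ b := by
    have h1 : (σ.L + 1) * q = b := by
      rw [hqd]
      field_simp
    nlinarith only [h1, hq]
  set δ : ℝ := min (η₂ / 6) (min (s * η₂ / 12) (min (q / 2) (η₂ * q ^ 2 / 384))) with hδd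
  have hδ : 0 < δ := by
    refine lt_min (by positivity) (lt_min (by positivity) (lt_min (by positivity) ?_))
    positivity
  have hδa : δ ≤ η₂ / 6 := min_le_left _ _
  have hδb : δ ≤ s * η₂ / 12 := (min_le_right _ _).trans (min_le_left _ _)
  have hδc : δ ≤ q / 2 := (min_le_right _ _).trans ((min_le_right _ _).trans (min_le_left _ _))
  have hδd' : δ ≤ η₂ * q ^ 2 / 384 :=
    (min_le_right _ _).trans ((min_le_right _ _).trans (min_le_right _ _))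
  -- the small number
  set ρ : ℝ := 4 * δ / η₂ with hρd
  have hρη : η₂ * ρ = 4 * δ := by
    rw [hρd]
    field_simp
  have hρ0 : 0 < ρ := div_pos (by positivity) hη₂
  have hρs : 3 * ρ ≤ s := by
    have h1 : η₂ * (3 * ρ) ≤ η₂ * s := by
      nlinarith only [hρη, hδb]
    exact le_of_mul_le_mul_left h1 hη₂
  have hsq : Real.sqrt (2 * (3 * ρ)) ≤ q / 4 := by
    rw [Real.sqrt_le_left (by positivity)]
    have h1 : η₂ * (2 * (3 * ρ)) ≤ η₂ * (q / 4) ^ 2 := by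
      nlinarith only [hρη, hδd']
    exact le_of_mul_le_mul_left h1 hη₂
  have hbig : σ.L * (δ + Real.sqrt (2 * (3 * ρ)) + Real.sqrt (2 * (3 * ρ))) ≤ b := by
    refine le_trans (mul_le_mul_of_nonneg_left ?_ hL0) hLq
    linarith only [hsq, hδc]
  refine ⟨δ, η₂ / 2, η₂, hδ, half_pos hη₂, half_lt_self hη₂, hη₂a, ?_⟩
  intro X C hx hr
  -- norms
  have hn0 : ∀ u, ‖f0 C u‖ = 1 := fun u => (C u).e.orthonormal.1 0
  have hn1 : ∀ u, ‖f1 C u‖ = 1 := fun u => (C u).e.orthonormal.1 1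
  have h01 : ∀ u, inner ℂ (f0 C u) (f1 C u) = 0 := fun u =>
    (C u).e.orthonormal.2 (by
      intro h
      have := congrArg Fin.val h
      simp at this)
  have hWt : ∀ u, Wt (C u).t := fun u => ⟨(C u).t_nonneg, (C u).t_sum⟩
  -- the perturbation
  have hP : ∀ S ∈ Ks C δ, ∀ u ∈ S, ∀ v ∈ S,
      |((C u).r 0 - (C u).r 1) - ((C v).r 0 - (C v).r 1)| ≤ 3 * δ ∧
      ((C u).r 0 - (C u).r 1) * (1 - ‖inner ℂ (f0 C u) (f0 C v)‖ ^ 2) ≤ 2 * δ ∧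
      ((C u).r 1 - (C u).r 2) * (2 - (‖inner ℂ (f0 C u) (f0 C v)‖ ^ 2 +
        ‖inner ℂ (f0 C u) (f1 C v)‖ ^ 2 + ‖inner ℂ (f1 C u) (f0 C v)‖ ^ 2 +
        ‖inner ℂ (f1 C u) (f1 C v)‖ ^ 2)) ≤ 4 * δ := fun S hS u hu v hv =>
    hPRT κ J k (C u) (C v) δ ((hx u).trans (hx v).symm) (hr u) (hr v) (hS u hu v hv)
  -- bounds for the first vectors
  have hA : ∀ S ∈ KA C δ (η₂ / 2), ∀ u ∈ S, ∀ v ∈ S, 1 - ρ ≤ ‖inner ℂ (f0 C u) (f0 C v)‖ ^ 2 := by
    intro S hS u hu v hv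
    have h1 := (hP S hS.1 u hu v hv).2.1
    have h2 := hS.2 u hu
    by_contra hcon
    rw [not_le] at hcon
    have h3 : 0 ≤ 1 - ‖inner ℂ (f0 C u) (f0 C v)‖ ^ 2 := by linarith only [hcon, hρ0]
    have h4 := mul_le_mul_of_nonneg_right h2 h3
    nlinarith only [h1, h4, hcon, hρη, hη₂]
  -- bounds for the planes
  have hB : ∀ S ∈ KB C δ η₂, ∀ u ∈ S, ∀ v ∈ S, 2 - ρ ≤ ‖inner ℂ (f0 C u) (f0 C v)‖ ^ 2 +
        ‖inner ℂ (f0 C u) (f1 C v)‖ ^ 2 + ‖inner ℂ (f1 C u) (f0 C v)‖ ^ 2 +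
        ‖inner ℂ (f1 C u) (f1 C v)‖ ^ 2 := by
    intro S hS u hu v hv
    have h1 := (hP S hS.1 u hu v hv).2.2
    have h2 := hT J k (C u) (hr u) ((hS.2 u hu).trans hη₂b)
    by_contra hcon
    rw [not_le] at hcon
    have h3 : 0 ≤ 2 - (‖inner ℂ (f0 C u) (f0 C v)‖ ^ 2 +
        ‖inner ℂ (f0 C u) (f1 C v)‖ ^ 2 + ‖inner ℂ (f1 C u) (f0 C v)‖ ^ 2 +
        ‖inner ℂ (f1 C u) (f1 C v)‖ ^ 2) := by linarith only [hcon, hρ0]
    have h4 := mul_le_mul_of_nonneg_right (hη₂b.trans h2) h3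
    nlinarith only [h1, h4, hcon, hρη, hη₂]
  have hW := fun (u v : X) => hWDG (k + 1 + 2) (f0 C u) (f1 C u) (f0 C v) (f1 C v)
    (hn0 u) (hn1 u) (h01 u) (hn0 v) (hn1 v) (h01 v)
  have hAB1 : ∀ S ∈ KA C δ (η₂ / 2) ∩ KB C δ η₂, ∀ u ∈ S, ∀ v ∈ S,
      1 - 3 * ρ ≤ ‖inner ℂ (f1 C u) (f1 C v)‖ ^ 2 := by
    intro S hS u hu v hv
    exact (((hW u v).2.2 ρ (hB S hS.2 u hu v hv)).2 (hA S hS.1 u hu v hv)).1
  refine ⟨?_, ?_, ?_, ?_, ?_, ?_⟩
  · -- the cover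
    intro S hS
    by_cases h1 : ∀ u ∈ S, η₂ / 2 ≤ (C u).r 0 - (C u).r 1
    · exact Or.inl ⟨hS, h1⟩
    · right
      push Not at h1
      obtain ⟨u, hu, hu1⟩ := h1
      refine ⟨hS, fun v hv => ?_⟩
      have h2 := (abs_le.1 (hP S hS u hu v hv).1).1
      linarith only [h2, hu1, hδa]
  · intro S hS u hu v hv
    have h1 := hA S hS u hu v hv
    linarith only [h1, hρs, hsa, hρ0]
  · intro S hS u hu v hv
    have h1 := ((hW u v).2.2 ρ (hB S hS u hu v hv)).1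
    have h2 : 1 / 2 ≤ 1 - ρ := by linarith only [hρs, hsa, hρ0]
    exact h2.trans h1
  · intro S hS u hu v hv
    have h1 := hAB1 S hS u hu v hv
    linarith only [h1, hρs, hsa]
  · refine hU X (k + 1 + 2) (f0 C) (f1 C) (KA C δ (η₂ / 2) ∩ KB C δ η₂)
      (fun u => ⟨hn0 u, hn1 u, h01 u⟩) fun S hS u hu v hv => ⟨?_, ?_⟩
    · have h1 := hA S hS.1 u hu v hv
      linarith only [h1, hρs, hsb, hρ0, hs₁]
    · have h1 := hB S hS.2 u hu v hv
      linarith only [h1, hρs, hsb, hρ0, hs₁]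
  · -- the sections
    choose η hη using fun i : Fin m => hC i X (V (k + 1 + 2)) (f0 C) (f1 C)
      (fun u => σ.S i (C u).t (f0 C u) (f1 C u)) hn0 hn1
    refine ⟨η, fun S hS hne => ?_⟩
    obtain ⟨u0, hu0⟩ := hne
    -- the second eigenvalue
    have hr1 : κ₂ ≤ (C u0).r 1 := by
      obtain ⟨_, hb0, _, hb1, _, _, _, _, _, _, hb2⟩ := hBAS κ J (V (k + 1 + 2)) (k + 1 + 2) (C u0)
      have h1 : ∑ a, (C u0).r a ^ 2 ≤ ∑ a, (C u0).r 0 * (C u0).r a := by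
        refine Finset.sum_le_sum fun a _ => ?_
        rw [sq]
        exact mul_le_mul_of_nonneg_right (hr u0 (Fin.zero_le a)) (hb0 a)
      rw [← Finset.mul_sum, hb1, mul_one] at h1
      have h2 := hS.2.2 u0 hu0
      linarith only [h1, h2, hb2, hη₂c]
    obtain ⟨i, hi⟩ := σ.nv (C u0) (hx u0) (hr u0) hr1
    refine ⟨i, hη i S ?_⟩
    -- comparison
    have hz0 : ∀ v ∈ S, ∀ v' ∈ S, inner ℂ (f0 C v) (f0 C v') ≠ 0 := by
      intro v hv v' hv' h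
      have h1 := hA S hS.1 v hv v' hv'
      rw [h, norm_zero] at h1
      norm_num at h1
      linarith only [h1, hρs, hsa, hρ0]
    have hz1 : ∀ v ∈ S, ∀ v' ∈ S, inner ℂ (f1 C v) (f1 C v') ≠ 0 := by
      intro v hv v' hv' h
      have h1 := hAB1 S hS v hv v' hv'
      rw [h, norm_zero] at h1
      norm_num at h1
      linarith only [h1, hρs, hsa, hρ0]
    have hcmp : ∀ v ∈ S, ∀ v' ∈ S,
        ‖σ.S i (C v').t (f0 C v') (f1 C v') - (ph (inner ℂ (f1 C v) (f1 C v')) *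
          (starRingEnd ℂ) (ph (inner ℂ (f0 C v) (f0 C v')))) ^ (σ.w i) *
          σ.S i (C v).t (f0 C v) (f1 C v)‖ ≤ b := by
      intro v hv v' hv'
      have h1 := σ.eqv i (C v).t (f0 C v) (f1 C v) (ph (inner ℂ (f0 C v) (f0 C v')))
        (ph (inner ℂ (f1 C v) (f1 C v'))) (hWt v) (norm_ph (hz0 v hv v' hv'))
        (norm_ph (hz1 v hv v' hv'))
      rw [← h1]
      refine (σ.lip i (C v').t (C v).t _ _ _ _ (hWt v') (hWt v)).trans ?_
      refine le_trans (mul_le_mul_of_nonneg_left ?_ hL0) hbig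
      have h2 := hS.1.1 v' hv' v hv
      have h3 := ph_dist_le (f0 C v) (f0 C v') (3 * ρ) (hn0 v) (hn0 v') (hz0 v hv v' hv') (by
        have := hA S hS.1 v hv v' hv'
        linarith only [this, hρ0])
      have h4 := ph_dist_le (f1 C v) (f1 C v') (3 * ρ) (hn1 v) (hn1 v') (hz1 v hv v' hv')
        (hAB1 S hS v hv v' hv')
      linarith only [h2, h3, h4]
    have hnn : ∀ v ∈ S, ∀ v' ∈ S, ‖(ph (inner ℂ (f1 C v) (f1 C v')) *
          (starRingEnd ℂ) (ph (inner ℂ (f0 C v) (f0 C v')))) ^ (σ.w i)‖ = 1 := by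
      intro v hv v' hv'
      rw [norm_zpow, norm_mul, RCLike.norm_conj, norm_ph (hz0 v hv v' hv'),
        norm_ph (hz1 v hv v' hv'), mul_one, one_zpow]
    have hlow : ∀ v ∈ S, σ.c / 2 ≤ ‖σ.S i (C v).t (f0 C v) (f1 C v)‖ := by
      intro v hv
      have h1 := hcmp u0 hu0 v hv
      have h2 := norm_sub_norm_le ((ph (inner ℂ (f1 C u0) (f1 C v)) *
          (starRingEnd ℂ) (ph (inner ℂ (f0 C u0) (f0 C v)))) ^ (σ.w i) *
          σ.S i (C u0).t (f0 C u0) (f1 C u0)) (σ.S i (C v).t (f0 C v) (f1 C v))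
      rw [norm_sub_rev, norm_mul, hnn u0 hu0 v hv, one_mul] at h2
      have h3 : b ≤ σ.c / 2 := min_le_right _ _
      have h4 : σ.c ≤ ‖σ.S i (C u0).t (f0 C u0) (f1 C u0)‖ := hi
      linarith only [h1, h2, h3, h4]
    intro v hv v' hv'
    refine ⟨?_, ?_, hlow v hv, ?_⟩
    · have h1 := hA S hS.1 v hv v' hv'
      have h2 := hs₂f i
      linarith only [h1, h2, hρs, hsc, hρ0, hs₂]
    · have h1 := hAB1 S hS v hv v' hv'
      have h2 := hs₂f i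
      linarith only [h1, h2, hρs, hsc]
    · have h1 := hcmp v hv v' hv'
      have h2 := hs₂f i
      have h3 : b ≤ s := min_le_left _ _
      linarith only [h1, h2, h3, hsc]

end

end Pool.Agent.H48.FAS
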