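import Pool.Agent.H30.FA.TC

/-!
Row NIL of the board fas: products with many factors `u - u'` vanish on cycles.
-/

namespace Pool.Agent.H48.FAS

noncomputable section

open Pool.Agent.H59 Pool.Agent.H48.FR Pool.Agent.H58.FL Pool.Agent.H30.FA

theorem PL_sub {X : Type} (g h : X → X → X → ℝ) (B : List (X → X → X → ℝ)) :
    ∀ (A : List (X → X → X → ℝ)) (x : ℕ → X),
      PL (A ++ (fun a b c => g a b c - h a b c) :: B) x =
        PL (A ++ g :: B) x + (-1) * PL (A ++ h :: B) x
  | [], x => by
    show (g (x 0) (x 1) (x 2) - h (x 0) (x 1) (x 2)) * PL B (sh 2 x) =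
      g (x 0) (x 1) (x 2) * PL B (sh 2 x) + (-1) * (h (x 0) (x 1) (x 2) * PL B (sh 2 x))
    ring
  | a :: A, x => by
    show a (x 0) (x 1) (x 2) * PL (A ++ (fun a b c => g a b c - h a b c) :: B) (sh 2 x) =
      a (x 0) (x 1) (x 2) * PL (A ++ g :: B) (sh 2 x) +
        (-1) * (a (x 0) (x 1) (x 2) * PL (A ++ h :: B) (sh 2 x))
    rw [PL_sub g h B A (sh 2 x)]
    ring

theorem PL_zero {X : Type} (S : Set X) :
    ∀ (A : List (X → X → X → ℝ)) (x : ℕ → X), (∀ j, x j ∈ S) →
      (∃ g ∈ A, ∀ a ∈ S, ∀ b ∈ S, ∀ c ∈ S, g a b c = 0) → PL A x = 0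
  | [], x, _, h => by
    obtain ⟨g, hg, _⟩ := h
    exact absurd hg (List.not_mem_nil)
  | a :: A, x, hx, h => by
    show a (x 0) (x 1) (x 2) * PL A (sh 2 x) = 0
    obtain ⟨g, hg, hz⟩ := h
    rcases List.mem_cons.1 hg with rfl | hg
    · rw [hz _ (hx 0) _ (hx 1) _ (hx 2), zero_mul]
    · rw [PL_zero S A (sh 2 x) (fun j => hx (2 + j)) ⟨g, hg, hz⟩, mul_zero]

theorem pf_NIL (hZA : T_ZA) (hEVL : T_EVL) (hLOW : T_LOW) : T_NIL := by
  intro X K hK u u' m η w hw hu hu' hS n L hL hn z hz hbd
  set y : X → X → X → ℝ := fun a b c => u a b c - u' a b c with hy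
  have hyc : Cl2 K y := by
    intro S hSK a ha b hb c hc d hd
    have h1 := hu S hSK a ha b hb c hc d hd
    have h2 := hu' S hSK a ha b hb c hc d hd
    unfold d2 at h1 h2 ⊢
    simp only [hy]
    linarith only [h1, h2]
  set yi : Fin m → X → X → X → ℝ := fun i a b c =>
    y a b c - d1 (fun p q => η i p q / w i) a b c with hyi
  have hyic : ∀ i, Cl2 K (yi i) := by
    intro i S hSK a ha b hb c hc d hd
    have h1 := hyc S hSK a ha b hb c hc d hd
    have h2 := (hLOW X).2.2.2.2.2.2.2.2.2.1 (fun p q => η i p q / w i) a b c d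
    unfold d2 at h1 h2 ⊢
    simp only [hyi]
    linarith only [h1, h2]
  -- change of the letters
  have hch : ∀ (is : List (Fin m)) (A : List (X → X → X → ℝ)), (∀ g ∈ A, Cl2 K g) →
      A.length + is.length + L.length = n →
      ev (2 * n) (PL (A ++ (List.replicate is.length y ++ L))) z =
        ev (2 * n) (PL (A ++ (is.map yi ++ L))) z := by
    intro is
    induction is with
    | nil =>
      intro A _ _
      rfl
    | cons i is ih =>
      intro A hA hlen
      rw [List.length_cons] at hlen
      have h1 : ev (2 * n) (PL (A ++ yi i :: (List.replicate is.length y ++ L))) z =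
          ev (2 * n) (PL (A ++ y :: (List.replicate is.length y ++ L))) z := by
        have h2 : PL (A ++ yi i :: (List.replicate is.length y ++ L)) =
            fun x => PL (A ++ y :: (List.replicate is.length y ++ L)) x +
              (-1) * PL (A ++ d1 (fun p q => η i p q / w i) ::
                (List.replicate is.length y ++ L)) x := by
          funext x
          exact PL_sub y (d1 (fun p q => η i p q / w i)) _ A x
        rw [h2, (hEVL X (2 * n)).2.2.1]
        rw [hZA X K hK n A (List.replicate is.length y ++ L) _ ?_ hA ?_ z hz hbd, mul_zero,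
          add_zero]
        · rw [List.length_append, List.length_replicate]
          omega
        · intro g hg
          rcases List.mem_append.1 hg with hg | hg
          · rw [List.eq_of_mem_replicate hg]
            exact hyc
          · exact hL g hg
      have h3 := ih (A ++ [yi i]) (by
        intro g hg
        rcases List.mem_append.1 hg with hg | hg
        · exact hA g hg
        · rw [List.mem_singleton.1 hg]
          exact hyic i) (by
        rw [List.length_append, List.length_singleton]
        omega)
      rw [List.append_assoc, List.append_assoc, List.singleton_append, List.singleton_append]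
        at h3
      rw [List.length_cons, List.replicate_succ, List.cons_append, ← h1, h3, List.map_cons,
        List.cons_append]
  have h4 := hch (List.finRange m) [] (fun g hg => absurd hg List.not_mem_nil) (by
    rw [List.length_finRange, List.length_nil]
    omega)
  rw [List.length_finRange, List.nil_append, List.nil_append] at h4
  rw [h4]
  have h5 : ev (2 * n) (PL ((List.finRange m).map yi ++ L)) z =
      ev (2 * n) (fun _ => 0) z := by
    refine (hEVL X (2 * n)).2.2.2.2.1 _ _ z fun t ht => ?_
    have h6 : Set.range t ∈ K := hz t ht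
    obtain ⟨i, hi⟩ := hS (Set.range t) h6 ⟨t 0, 0, rfl⟩
    refine PL_zero (Set.range t) _ _ (fun j => ⟨_, rfl⟩)
      ⟨yi i, List.mem_append_left _ (List.mem_map.2 ⟨i, List.mem_finRange i, rfl⟩), ?_⟩
    intro a ha b hb c hc
    have h7 := hi a ha b hb c hc
    have h8 : (w i : ℝ) ≠ 0 := by exact_mod_cast hw i
    have h9 : d1 (fun p q => η i p q / w i) a b c = d1 (η i) a b c / w i := by
      unfold d1
      ring
    simp only [hyi]
    rw [h9, ← h7]
    simp only [hy]
    field_simp
    ring
  rw [h5]
  simp [ev, Finsupp.sum]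

end

end Pool.Agent.H48.FAS
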